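import Mathlib
import Pool.Agent.H96.MC.Targets4

/-!
# The classes at all windows of a matched interval (module CHN)
-/

namespace Pool.Agent.H57.MC.CHN

open Pool.Agent.H96.MC Classical

variable {d q : ℕ}

theorem sum_filter_map {α M : Type*} [AddCommMonoid M] (μ : Multiset α) (P : α → Prop) [DecidablePred P]
    (f : α → M) :
    ((μ.filter P).map f).sum = (μ.map (fun u => if P u then f u else 0)).sum := by
  induction μ using Multiset.induction_on with
  | empty => simp
  | cons a s ih =>
    by_cases h : P a
    · simp [Multiset.filter_cons_of_pos _ h, h, ih]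
    · simp [Multiset.filter_cons_of_neg _ h, h, ih]

theorem push_filter (g : Cell d → Cell d) (u : Pat d q) (p : CC d q → Prop) [DecidablePred p] :
    (push g u).filter p = push g (u.filter (fun x => p (g x.1, x.2))) := by
  induction u using Finsupp.induction_linear with
  | zero => rw [push_zero, Finsupp.filter_zero, Finsupp.filter_zero, push_zero]
  | add f h hf hh => rw [push_add, Finsupp.filter_add, hf, hh, Finsupp.filter_add, push_add]
  | single a b =>
    rw [push_single]
    by_cases h : p (g a.1, a.2)
    · rw [Finsupp.filter_single_of_pos _ h, Finsupp.filter_single_of_pos _ (by exact h), push_single]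
    · rw [Finsupp.filter_single_of_neg _ h, Finsupp.filter_single_of_neg _ (by exact h), push_zero]

/-- translation of patterns -/
noncomputable def tr (C : Cell d) (u : Pat d q) : Pat d q := push (fun z => z - C) u

theorem tr_inj (C : Cell d) : Function.Injective (fun x : CC d q => (x.1 - C, x.2)) := by
  rintro ⟨a, i⟩ ⟨b, j⟩ h
  simp only [Prod.mk.injEq] at h
  obtain ⟨h1, h2⟩ := h
  have : a = b := sub_left_injective h1
  rw [this, h2]

theorem tr_apply (C : Cell d) (u : Pat d q) (x : CC d q) : tr C u x = u (x.1 + C, x.2) := by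
  have := Finsupp.mapDomain_apply (tr_inj (d := d) (q := q) C) u (x.1 + C, x.2)
  simp only [add_sub_cancel_right] at this
  exact this

theorem mem_tr (C : Cell d) (u : Pat d q) (x : CC d q) :
    x ∈ (tr C u).support ↔ (x.1 + C, x.2) ∈ u.support := by
  rw [Finsupp.mem_support_iff, Finsupp.mem_support_iff, tr_apply]

theorem exists_tr (C : Cell d) (u : Pat d q) (t : ℕ) :
    (∃ x ∈ (tr C u).support, sn x.1 ≤ t) ↔ ∃ x ∈ u.support, sn (x.1 - C) ≤ t := by
  constructor
  · rintro ⟨x, hx, hs⟩
    rw [mem_tr] at hx
    exact ⟨_, hx, by simpa using hs⟩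
  · rintro ⟨x, hx, hs⟩
    refine ⟨(x.1 - C, x.2), ?_, hs⟩
    rw [mem_tr]
    simpa using hx

theorem Fam_tr {V : Finset (Fin q → ℕ)} {r : ℝ} (C : Cell d) {u : Pat d q} (h : Fam V r u) :
    Fam V r (tr C u) := by
  refine ⟨?_, ?_, ?_⟩
  · intro h0
    apply h.1
    ext x
    have := congrArg (fun f : Pat d q => f (x.1 - C, x.2)) h0
    simp only [tr_apply, sub_add_cancel] at this
    exact this
  · rw [tr, tot_push]; exact h.2.1
  · intro x hx y hy
    rw [mem_tr] at hx hy
    have := h.2.2 _ hx _ hy
    simpa using this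

theorem sum_tr (C : Cell d) (μ : Multiset (Pat d q)) (x : CC d q) :
    (μ.map (tr C)).sum x = μ.sum (x.1 + C, x.2) := by
  induction μ using Multiset.induction_on with
  | empty => simp
  | cons a s ih =>
    rw [Multiset.map_cons, Multiset.sum_cons, Multiset.sum_cons, Finsupp.add_apply, Finsupp.add_apply, ih, tr_apply]

theorem sum_filter_le (μ : Multiset (Pat d q)) (P : Pat d q → Prop) [DecidablePred P] (x : CC d q) :
    (μ.filter P).sum x ≤ μ.sum x := by
  induction μ using Multiset.induction_on with
  | empty => simp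
  | cons a s ih =>
    by_cases h : P a
    · rw [Multiset.filter_cons_of_pos _ h, Multiset.sum_cons, Multiset.sum_cons, Finsupp.add_apply,
        Finsupp.add_apply]
      omega
    · rw [Multiset.filter_cons_of_neg _ h, Multiset.sum_cons, Finsupp.add_apply]
      omega

theorem sum_filter_eq (μ : Multiset (Pat d q)) (P : Pat d q → Prop) [DecidablePred P] (x : CC d q)
    (h0 : ∀ u, ¬ P u → u x = 0) : (μ.filter P).sum x = μ.sum x := by
  induction μ using Multiset.induction_on with
  | empty => simp
  | cons a s ih =>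
    by_cases h : P a
    · rw [Multiset.filter_cons_of_pos _ h, Multiset.sum_cons, Multiset.sum_cons, Finsupp.add_apply,
        Finsupp.add_apply, ih]
    · rw [Multiset.filter_cons_of_neg _ h, Multiset.sum_cons, Finsupp.add_apply, h0 a h, ih]
      omega

theorem sum_eq_zero (μ : Multiset (Pat d q)) (x : CC d q) (h0 : ∀ u ∈ μ, u x = 0) : μ.sum x = 0 := by
  induction μ using Multiset.induction_on with
  | empty => simp
  | cons a s ih =>
    rw [Multiset.sum_cons, Finsupp.add_apply, h0 a (Multiset.mem_cons_self _ _),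
      ih fun u hu => h0 u (Multiset.mem_cons_of_mem hu)]

/-- totals of the cells in an interval -/
noncomputable def LL (a b : ℤ) : Pat 1 q →+ (Fin q → ℤ) where
  toFun u := fun i => ∑ x ∈ Finset.Ico a b, (u ((fun _ => x), i) : ℤ)
  map_zero' := by funext i; simp
  map_add' u v := by
    funext i
    simp only [Finsupp.add_apply, Pi.add_apply, Nat.cast_add, Finset.sum_add_distrib]

theorem cell_eq (z : Cell 1) : z = fun _ => z 0 := by
  funext i
  rw [Subsingleton.elim i 0]

theorem LL_eq (a b : ℤ) (u : Pat 1 q) [DecidablePred (fun x : CC 1 q => a ≤ x.1 0 ∧ x.1 0 < b)] :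
    LL a b u = toZ (tot (u.filter (fun x => a ≤ x.1 0 ∧ x.1 0 < b))) := by
  induction u using Finsupp.induction_linear with
  | zero => rw [map_zero, Finsupp.filter_zero, tot_zero, toZ_zero]
  | add f h hf hh => rw [map_add, hf, hh, Finsupp.filter_add, tot_add, toZ_add]
  | single x k =>
    obtain ⟨z, j⟩ := x
    funext i
    show ∑ x ∈ Finset.Ico a b, ((Finsupp.single (z, j) k : Pat 1 q) ((fun _ => x), i) : ℤ) = _
    by_cases h : a ≤ z 0 ∧ z 0 < b
    · rw [Finsupp.filter_single_of_pos _ (by exact h), tot_single]
      rw [Finset.sum_eq_single (z 0)]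
      · rw [← cell_eq z]
        show _ = ((Pi.single j k : Fin q → ℕ) i : ℤ)
        by_cases hj : j = i
        · subst hj; simp
        · rw [Finsupp.single_eq_of_ne (fun e => hj (Prod.ext_iff.mp e).2.symm)]
          simp [Pi.single_apply, Ne.symm hj]
      · intro x _ hx
        rw [Finsupp.single_eq_of_ne]
        · rfl
        · intro e
          apply hx
          exact congrFun (Prod.ext_iff.mp e).1 0
      · intro hx
        exact absurd (Finset.mem_Ico.mpr h) hx
    · rw [Finsupp.filter_single_of_neg _ (by exact h), tot_zero, toZ_zero]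
      refine Finset.sum_eq_zero fun x hx => ?_
      rw [Finsupp.single_eq_of_ne]
      · rfl
      · intro e
        apply h
        have : x = z 0 := congrFun (Prod.ext_iff.mp e).1 0
        rw [← this]
        exact Finset.mem_Ico.mp hx

theorem dist_le {V : Finset (Fin q → ℕ)} {N : ℕ} {u : Pat 1 q} (h : Fam V (N : ℝ) u) {x y : CC 1 q}
    (hx : x ∈ u.support) (hy : y ∈ u.support) : x.1 0 - y.1 0 ≤ N := by
  have h1 := h.2.2 x hx y hy
  have h2 := abs_le_nrm (x.1 - y.1) 0
  have h3 : (((x.1 - y.1) 0 : ℤ) : ℝ) ≤ N := (le_abs_self _).trans (h2.trans h1)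
  have h4 : (x.1 - y.1) 0 ≤ (N : ℤ) := by exact_mod_cast h3
  exact h4

theorem filter_congr' (u : Pat d q) (p p' : CC d q → Prop) [DecidablePred p] [DecidablePred p'] (h : ∀ x ∈ u.support, p x ↔ p' x) :
    u.filter p = u.filter p' := by
  ext x
  by_cases hx : x ∈ u.support
  · rw [Finsupp.filter_apply, Finsupp.filter_apply]
    by_cases hp : p x
    · rw [if_pos hp, if_pos ((h x hx).mp hp)]
    · rw [if_neg hp, if_neg (fun e => hp ((h x hx).mpr e))]
  · have : u x = 0 := by simpa using hx
    rw [Finsupp.filter_apply, Finsupp.filter_apply, this]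
    simp

theorem filter_all (u : Pat d q) (p : CC d q → Prop) [DecidablePred p] (h : ∀ x ∈ u.support, p x) : u.filter p = u := by
  rw [Finsupp.filter_eq_self_iff]
  intro x hx
  exact h x (Finsupp.mem_support_iff.mpr hx)

theorem filter_none (u : Pat d q) (p : CC d q → Prop) [DecidablePred p] (h : ∀ x ∈ u.support, ¬ p x) : u.filter p = 0 := by
  rw [Finsupp.filter_eq_zero_iff]
  intro x hx
  by_contra h0
  exact h x (Finsupp.mem_support_iff.mpr h0) hx

theorem sum_mem {q : ℕ} (L : AddSubgroup (Fin q → ℤ)) {α : Type*} (μ : Multiset α) (f : α → Fin q → ℤ)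
    (h : ∀ u ∈ μ, f u ∈ L) : (μ.map f).sum ∈ L := by
  induction μ using Multiset.induction_on with
  | empty => simp [L.zero_mem]
  | cons a s ih =>
    rw [Multiset.map_cons, Multiset.sum_cons]
    exact L.add_mem (h a (Multiset.mem_cons_self _ _)) (ih fun u hu => h u (Multiset.mem_cons_of_mem hu))

theorem sn1 (z : Cell 1) (t : ℕ) : sn z ≤ t ↔ (z 0).natAbs ≤ t := by
  rw [sn_le_iff]
  constructor
  · intro h; exact h 0
  · intro h i; rw [Subsingleton.elim i 0]; exact h

theorem chn : T_CHN := by
  intro q V N s T R n μ hNs hsT hfam hle heq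
  set κ : Fin q → ℤ := (μ.map (fun u => if ∃ x ∈ u.support, x.1 0 < -(R : ℤ) then
    toZ (tot (u.filter (fun x => -(R : ℤ) ≤ x.1 0))) else 0)).sum with hκ
  refine ⟨-κ, fun c hc => ?_⟩
  set C : Cell 1 := fun _ => c with hC
  set A : Pat 1 q → Prop := fun u => ∃ x ∈ u.support, sn (x.1 - C) ≤ T with hA
  set μc : Multiset (Pat 1 q) := (μ.filter A).map (tr C) with hμc
  have hsum : ∀ x : CC 1 q, μc.sum x = (μ.filter A).sum (x.1 + C, x.2) := fun x => sum_tr C _ x
  have hle' : ∀ x : CC 1 q, μc.sum x ≤ rst (shift C n) (cube 0 (T + N)) x := by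
    intro x
    rw [rst_apply]
    split_ifs with hx
    · rw [hsum]
      exact (sum_filter_le _ _ _).trans (hle _)
    · rw [hsum, sum_eq_zero]
      intro u hu
      rw [Multiset.mem_filter] at hu
      obtain ⟨hu1, y, hy, hy2⟩ := hu
      by_contra h0
      have hxs : (x.1 + C, x.2) ∈ u.support := Finsupp.mem_support_iff.mpr h0
      apply hx
      rw [mem_cube, sub_zero, sn1]
      have h1 := dist_le (hfam u hu1) hxs hy
      have h2 := dist_le (hfam u hu1) hy hxs
      rw [sn1] at hy2
      simp only [hC, Pi.add_apply, Pi.sub_apply] at h1 h2 hy2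
      omega
  refine ⟨μc, rst (shift C n) (cube 0 (T + N)) - μc.sum, ?_, ?_, ?_, ?_⟩
  · intro u hu
    rw [hμc, Multiset.mem_map] at hu
    obtain ⟨u', hu', rfl⟩ := hu
    rw [Multiset.mem_filter] at hu'
    exact Fam_tr C (hfam u' hu'.1)
  · intro x hx
    rw [Finsupp.tsub_apply, rst_apply]
    have h1 : x.1 ∈ cube (0 : Cell 1) (T + N) := by
      rw [mem_cube, sub_zero]; omega
    rw [if_pos h1, hsum, sum_filter_eq]
    · have h2 : sn (x.1 + C) ≤ R := by
        rw [sn1] at hx ⊢
        simp only [hC, Pi.add_apply]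
        omega
      rw [heq (x.1 + C, x.2) h2]
      show n (x.1 + C, x.2) - n (x.1 + C, x.2) = 0
      omega
    · intro u hu
      by_contra h0
      apply hu
      refine ⟨(x.1 + C, x.2), Finsupp.mem_support_iff.mpr h0, ?_⟩
      simpa using hx
  · ext x
    rw [Finsupp.add_apply, Finsupp.tsub_apply]
    have := hle' x
    omega
  · intro _
    -- the left class
    have hleft : leftCls s μc = (μ.map (fun u => if ∃ x ∈ u.support, sn (x.1 - C) ≤ s then
        toZ (tot (u.filter (fun x => x.1 0 < c - s))) else 0)).sum := by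
      rw [leftCls]
      rw [sum_filter_map]
      rw [hμc, Multiset.map_map]
      rw [sum_filter_map]
      congr 1
      refine Multiset.map_congr rfl fun u _ => ?_
      simp only [Function.comp]
      by_cases h1 : ∃ x ∈ u.support, sn (x.1 - C) ≤ s
      · have h2 : A u := by
          obtain ⟨x, hx, hs⟩ := h1
          exact ⟨x, hx, hs.trans hsT⟩
        rw [if_pos h2, if_pos ((exists_tr C u s).mpr h1), if_pos h1]
        congr 1
        rw [tr, push_filter, tot_push]
        congr 1
        refine filter_congr' _ _ _ fun x _ => ?_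
        constructor
        · rintro ⟨i, hi⟩
          rw [Subsingleton.elim i 0] at hi
          simp only [hC, Pi.sub_apply] at hi
          omega
        · intro h
          refine ⟨0, ?_⟩
          simp only [hC, Pi.sub_apply]
          omega
      · rw [if_neg (fun h => h1 ((exists_tr C u s).mp h)), if_neg h1]
        simp
    have hlft : lft R (c - s) n = (μ.map (fun u => LL (-(R : ℤ)) (c - s) u)).sum := by
      rw [← map_multiset_sum]
      funext i
      show ∑ x ∈ Finset.Ico (-(R : ℤ)) (c - s), (n ((fun _ => x), i) : ℤ) =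
        ∑ x ∈ Finset.Ico (-(R : ℤ)) (c - s), (μ.sum ((fun _ => x), i) : ℤ)
      refine Finset.sum_congr rfl fun x hx => ?_
      rw [Finset.mem_Ico] at hx
      rw [heq ((fun _ => x), i)]
      rw [sn1]
      simp only
      omega
    rw [hleft, hlft]
    have hcomb : (μ.map (fun u => if ∃ x ∈ u.support, sn (x.1 - C) ≤ s then
        toZ (tot (u.filter (fun x => x.1 0 < c - s))) else 0)).sum - (-κ + (μ.map (fun u => LL (-(R : ℤ)) (c - s) u)).sum)
        = (μ.map (fun u => (if ∃ x ∈ u.support, sn (x.1 - C) ≤ s then
          toZ (tot (u.filter (fun x => x.1 0 < c - s))) else 0) +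
          (if ∃ x ∈ u.support, x.1 0 < -(R : ℤ) then
            toZ (tot (u.filter (fun x => -(R : ℤ) ≤ x.1 0))) else 0) - LL (-(R : ℤ)) (c - s) u)).sum := by
      rw [Multiset.sum_map_sub, Multiset.sum_map_add, ← hκ]
      abel
    rw [hcomb]
    refine sum_mem _ _ _ fun u hu => ?_
    have hf := hfam u hu
    rw [LL_eq]
    by_cases h1 : ∃ x ∈ u.support, sn (x.1 - C) ≤ s
    · obtain ⟨x0, hx0, hs0⟩ := h1
      rw [sn1] at hs0
      simp only [hC, Pi.sub_apply] at hs0
      have hall : ∀ x ∈ u.support, -(R : ℤ) ≤ x.1 0 := by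
        intro x hx
        have := dist_le hf hx0 hx
        omega
      rw [if_pos ⟨x0, hx0, by rw [sn1]; simp only [hC, Pi.sub_apply]; exact hs0⟩, if_neg]
      · rw [add_zero]
        have : u.filter (fun x => x.1 0 < c - s) = u.filter (fun x => -(R : ℤ) ≤ x.1 0 ∧ x.1 0 < c - s) :=
          filter_congr' _ _ _ fun x hx => ⟨fun h => ⟨hall x hx, h⟩, fun h => h.2⟩
        rw [this, sub_self]
        exact (Lat V).zero_mem
      · rintro ⟨x, hx, hxR⟩
        have := hall x hx
        omega
    · rw [if_neg h1, zero_add]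
      have hnot : ∀ x ∈ u.support, c + s < x.1 0 ∨ x.1 0 < c - s := by
        intro x hx
        by_contra hcon
        apply h1
        refine ⟨x, hx, ?_⟩
        rw [sn1]
        simp only [hC, Pi.sub_apply]
        omega
      by_cases h2 : ∃ x ∈ u.support, c + s < x.1 0
      · obtain ⟨x0, hx0, hs0⟩ := h2
        have hall : ∀ x ∈ u.support, c + s < x.1 0 := by
          intro x hx
          rcases hnot x hx with h | h
          · exact h
          · have := dist_le hf hx0 hx
            omega
        rw [if_neg, filter_none _ (fun x => -(R : ℤ) ≤ x.1 0 ∧ x.1 0 < c - s), tot_zero, toZ_zero, sub_zero]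
        · exact (Lat V).zero_mem
        · intro x hx
          have := hall x hx
          omega
        · rintro ⟨x, hx, hxR⟩
          have := hall x hx
          omega
      · have hall : ∀ x ∈ u.support, x.1 0 < c - s := by
          intro x hx
          rcases hnot x hx with h | h
          · exact absurd ⟨x, hx, h⟩ h2
          · exact h
        have : u.filter (fun x => -(R : ℤ) ≤ x.1 0 ∧ x.1 0 < c - s) = u.filter (fun x => -(R : ℤ) ≤ x.1 0) :=
          filter_congr' _ _ _ fun x hx => ⟨fun h => h.1, fun h => ⟨h, hall x hx⟩⟩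
        rw [this]
        split_ifs with h3
        · rw [sub_self]; exact (Lat V).zero_mem
        · have h4 : u.filter (fun x => -(R : ℤ) ≤ x.1 0) = u := by
            apply filter_all
            intro x hx
            by_contra hcon
            exact h3 ⟨x, hx, by omega⟩
          rw [h4, zero_sub]
          exact (Lat V).neg_mem (AddSubgroup.subset_closure ⟨_, hf.2.1, rfl⟩)

end Pool.Agent.H57.MC.CHN
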