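import Mathlib
import Pool.Agent.H96.MC.Targets4

/-!
# Probability of a long family near a finite set of cells (module LTL)
-/

namespace Pool.Agent.H57.MC.LTL

open Pool.Agent.H96.MC Classical MeasureTheory ProbabilityTheory

variable {d q : ℕ}

theorem hcell_eq (h : ℝ) (v : Cell d) : hcell h v = (@WithLp.ofLp 2 (Fin d → ℝ)) ⁻¹'
    (Set.pi Set.univ fun l => Set.Ico (h * (v l : ℝ)) (h * ((v l : ℝ) + 1))) := by
  ext x
  simp [hcell, Set.mem_pi]

theorem measurableSet_hcell (h : ℝ) (v : Cell d) : MeasurableSet (hcell h v) := by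
  rw [hcell_eq]
  exact (MeasurableSet.univ_pi fun l => measurableSet_Ico).preimage (PiLp.volume_preserving_ofLp (Fin d)).measurable

theorem volume_hcell {h : ℝ} (hh : 0 < h) (v : Cell d) : volume (hcell h v) = ENNReal.ofReal (h ^ d) := by
  rw [hcell_eq, (PiLp.volume_preserving_ofLp (Fin d)).measure_preimage
    (MeasurableSet.univ_pi fun l => measurableSet_Ico).nullMeasurableSet, Real.volume_pi_Ico]
  have : ∀ l : Fin d, h * ((v l : ℝ) + 1) - h * (v l : ℝ) = h := fun l => by ring
  simp only [this]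
  rw [Finset.prod_const, Finset.card_univ, Fintype.card_fin, ENNReal.ofReal_pow hh.le]

theorem ltl (hNU : T_NU) : T_LTL := by
  intro d q D S h r X hd hh
  set B : Set (Sp d) := ⋃ v ∈ X, hcell h v with hB
  have hBm : MeasurableSet B := Finset.measurableSet_biUnion X fun v _ => measurableSet_hcell h v
  obtain ⟨hae, hint, -⟩ := hNU d q D S r B hd hBm
  have hvol : volume B ≤ (X.card : ENNReal) * ENNReal.ofReal (h ^ d) := by
    refine (measure_biUnion_finset_le X _).trans ?_
    rw [Finset.sum_congr rfl fun v _ => volume_hcell hh v, Finset.sum_const, nsmul_eq_mul]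
  calc S.P {ω | ∃ v ∈ X, ∃ x ∈ hcell h v, ∃ F ∈ S.M ω, x ∈ F ∧ r < fdiam F}
      ≤ S.P {ω | 1 ≤ ((S.far r B ω).encard : ENNReal)} := by
        refine measure_mono_ae ?_
        filter_upwards [S.fam] with ω hω hE
        obtain ⟨v, hv, x, hx, F, hF, hxF, hrF⟩ := hE
        have hmem : x ∈ S.far r B ω := by
          refine ⟨?_, ?_, F, hF, hxF, hrF⟩
          · rw [hB]; exact Set.mem_biUnion (Finset.mem_coe.mpr hv) hx
          · obtain ⟨i, hi⟩ := (hω F hF).2.2 x hxF
            exact ⟨i, hi⟩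
        show (1 : ENNReal) ≤ ((S.far r B ω).encard : ENNReal)
        have h1 : 1 ≤ (S.far r B ω).encard := Set.one_le_encard_iff_nonempty.mpr ⟨x, hmem⟩
        exact_mod_cast h1
    _ ≤ ∫⁻ ω, ((S.far r B ω).encard : ENNReal) ∂S.P := by
        have := mul_meas_ge_le_lintegral₀ hae 1
        rwa [one_mul] at this
    _ = volume B * S.tl r := hint
    _ ≤ _ := by gcongr

end Pool.Agent.H57.MC.LTL
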